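import Pool.Agent.helper82.OG.Spec

/-!
# Project og (MP_ebc808_nt), module E16: a row entry or a column entry is odd
-/

set_option autoImplicit false

open Finset

namespace Pool.Agent.OG

open Pool.Agent.EP

theorem E16 (hI : OD.ID16_stmt) (h5 : OD.R5_stmt) (h11 : OD.R11_stmt) (hJN : JN_stmt) :
    E16_stmt := by
  intro p M hp hp5 hM hM5 hno
  have h := hI (7 * p) (by omega) (M : ℤ)
  rw [h11 p hp hp5, h5 M hM hM5, mul_one] at h
  by_contra hcon
  rw [not_or] at hcon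
  obtain ⟨hc1, hc2⟩ := hcon
  have s1 : ∑ u ∈ OD.uu ((M : ℤ) + ((7 * p : ℕ) : ℤ)).toNat,
      JG ac (7 * p) ((M : ℤ) - 16 * (u : ℤ) ^ 2) = 0 := by
    refine Finset.sum_eq_zero fun u _ => ?_
    rcases lt_trichotomy ((M : ℤ) - 16 * (u : ℤ) ^ 2) 0 with h0 | h0 | h0
    · rw [hJN (7 * p) _ (by have := hp.pos; omega) h0, if_neg]
      intro h1
      refine hno ⟨u, ?_⟩
      have h2 : ((M + 7 * p : ℕ) : ℤ) = ((16 * u ^ 2 : ℕ) : ℤ) := by
        push_cast at h1 ⊢
        linarith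
      exact_mod_cast h2
    · exfalso
      have h2 : ((M : ℕ) : ℤ) = ((16 * u ^ 2 : ℕ) : ℤ) := by
        push_cast
        linarith
      have h3 : M = 16 * u ^ 2 := by exact_mod_cast h2
      omega
    · by_contra h1
      refine hc1 ⟨((M : ℤ) - 16 * (u : ℤ) ^ 2).toNat, u, by omega, ?_, ?_⟩
      · have h2 : (((((M : ℤ) - 16 * (u : ℤ) ^ 2).toNat + 16 * u ^ 2 : ℕ)) : ℤ) = (M : ℤ) := by
          push_cast
          rw [Int.toNat_of_nonneg h0.le]
          ring
        exact_mod_cast h2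
      · rw [Int.toNat_of_nonneg h0.le]
        exact h1
  have s2 : ∑ u ∈ OD.uu (7 * p), JG ac (7 * p - 16 * u ^ 2) (M : ℤ) = 0 := by
    refine Finset.sum_eq_zero fun u hu => ?_
    rw [OD.uu, Finset.mem_filter] at hu
    have h3 := hu.2.2
    by_contra h1
    exact hc2 ⟨7 * p - 16 * u ^ 2, u, by omega, by omega, h1⟩
  rw [s1, s2, add_zero] at h
  exact zero_ne_one h

end Pool.Agent.OG
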